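import Pool.Agent.Y300.KS.Stm

/-! Every finite forest is realised by squares. -/

set_option autoImplicit false

open Set Filter Topology

namespace Pool.Agent.Y32.KS

/-- the realisation of the part `S` of a forest -/
lemma real_aux (k : ℕ) (r : Fin k → Fin k → Prop) (hirr : ∀ a, ¬ r a a)
    (htr : ∀ a b c, r a b → r b c → r a c)
    (hfor : ∀ a b c, r a c → r b c → a = b ∨ r a b ∨ r b a) (S : Finset (Fin k)) :
    ∃ (p ρ : Fin k → ℝ) (B : ℝ), (∀ a ∈ S, 0 < ρ a) ∧ (∀ a ∈ S, |p a| + ρ a ≤ B) ∧
      (∀ a ∈ S, ∀ b ∈ S, r a b → |p b - p a| + ρ b < ρ a / 2) ∧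
      (∀ a ∈ S, ∀ b ∈ S, a ≠ b → ¬ r a b → ¬ r b a → ρ a + ρ b < |p a - p b|) := by
  classical
  induction S using Finset.strongInduction with
  | H S ih =>
    rcases S.eq_empty_or_nonempty with hS | hS
    · subst hS
      exact ⟨fun _ => 0, fun _ => 0, 0, by simp, by simp, by simp, by simp⟩
    -- a leaf
    obtain ⟨m, hmS, hmax⟩ := S.exists_max_image (fun x => (S.filter (fun b => r b x)).card) hS
    have hleaf : ∀ b ∈ S, ¬ r m b := by
      intro b hb hmb
      have h1 := hmax b hb
      have h2 : (S.filter (fun c => r c m)).card < (S.filter (fun c => r c b)).card := by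
        apply Finset.card_lt_card
        rw [Finset.ssubset_iff_of_subset]
        · exact ⟨m, Finset.mem_filter.2 ⟨hmS, hmb⟩, fun h => hirr m (Finset.mem_filter.1 h).2⟩
        · intro c hc
          rw [Finset.mem_filter] at hc ⊢
          exact ⟨hc.1, htr _ _ _ hc.2 hmb⟩
      omega
    obtain ⟨T, hT⟩ : ∃ T, T = S.erase m := ⟨_, rfl⟩
    have hTS : T ⊂ S := hT ▸ Finset.erase_ssubset hmS
    have hmT : m ∉ T := by rw [hT]; exact Finset.notMem_erase m S
    have hsplit : ∀ a ∈ S, a = m ∨ (a ∈ T ∧ a ≠ m) := by
      intro a ha
      by_cases h : a = m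
      · exact Or.inl h
      · exact Or.inr ⟨by rw [hT]; exact Finset.mem_erase.2 ⟨h, ha⟩, h⟩
    obtain ⟨p, ρ, B, hpos, hbdd, hnest, hdisj⟩ := ih T hTS
    -- it is enough to place the leaf
    suffices hpl : ∃ (pm rm B' : ℝ), 0 < rm ∧ |pm| + rm ≤ B' ∧ B ≤ B' ∧
        (∀ a ∈ T, r a m → |pm - p a| + rm < ρ a / 2) ∧
        (∀ a ∈ T, ¬ r a m → ρ a + rm < |p a - pm|) by
      obtain ⟨pm, rm, B', h1, h2, h3, h4, h5⟩ := hpl
      refine ⟨Function.update p m pm, Function.update ρ m rm, B', ?_, ?_, ?_, ?_⟩
      · intro a ha
        rcases hsplit a ha with rfl | ⟨haT, hne⟩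
        · rw [Function.update_self]; exact h1
        · rw [Function.update_of_ne hne]; exact hpos a haT
      · intro a ha
        rcases hsplit a ha with rfl | ⟨haT, hne⟩
        · rw [Function.update_self, Function.update_self]; exact h2
        · rw [Function.update_of_ne hne, Function.update_of_ne hne]
          exact (hbdd a haT).trans h3
      · intro a ha b hb hab
        rcases hsplit a ha with rfl | ⟨haT, hne⟩
        · exact absurd hab (hleaf b hb)
        · rcases hsplit b hb with rfl | ⟨hbT, hneb⟩
          · rw [Function.update_self, Function.update_self, Function.update_of_ne hne,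
              Function.update_of_ne hne]
            exact h4 a haT hab
          · rw [Function.update_of_ne hne, Function.update_of_ne hne, Function.update_of_ne hneb,
              Function.update_of_ne hneb]
            exact hnest a haT b hbT hab
      · intro a ha b hb hab hr1 hr2
        rcases hsplit a ha with rfl | ⟨haT, hne⟩
        · rcases hsplit b hb with rfl | ⟨hbT, hneb⟩
          · exact absurd rfl hab
          · rw [Function.update_self, Function.update_self, Function.update_of_ne hneb,
              Function.update_of_ne hneb, abs_sub_comm, add_comm]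
            exact h5 b hbT hr2
        · rcases hsplit b hb with rfl | ⟨hbT, hneb⟩
          · rw [Function.update_self, Function.update_self, Function.update_of_ne hne,
              Function.update_of_ne hne]
            exact h5 a haT hr1
          · rw [Function.update_of_ne hne, Function.update_of_ne hne, Function.update_of_ne hneb,
              Function.update_of_ne hneb]
            exact hdisj a haT b hbT hab hr1 hr2
    rcases (T.filter (fun a => r a m)).eq_empty_or_nonempty with hA | hA
    · -- a root
      refine ⟨|B| + 1, 1 / 2, |B| + 2, by norm_num, ?_, ?_, ?_, ?_⟩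
      · rw [abs_of_nonneg (by positivity)]
        linarith
      · have := le_abs_self B
        linarith
      · intro a ha ham
        exact absurd (Finset.mem_filter.2 ⟨ha, ham⟩) (by rw [hA]; exact Finset.notMem_empty a)
      · intro a ha _
        have h1 := hbdd a ha
        have h2 := le_abs_self B
        have h3 := le_abs_self (p a)
        rw [abs_sub_comm]
        have h4 : |B| + 1 - p a ≤ |(|B| + 1 - p a)| := le_abs_self _
        linarith
    · -- the parent
      obtain ⟨a, haA, hamax⟩ := (T.filter (fun a => r a m)).exists_max_image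
        (fun x => (T.filter (fun b => r b x)).card) hA
      rw [Finset.mem_filter] at haA
      obtain ⟨haT, ham⟩ := haA
      have hpar : ∀ c ∈ T, r c m → c = a ∨ r c a := by
        intro c hc hcm
        rcases hfor c a m hcm ham with h | h | h
        · exact Or.inl h
        · exact Or.inr h
        · exfalso
          have h1 := hamax c (Finset.mem_filter.2 ⟨hc, hcm⟩)
          have h2 : (T.filter (fun x => r x a)).card < (T.filter (fun x => r x c)).card := by
            apply Finset.card_lt_card
            rw [Finset.ssubset_iff_of_subset]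
            · exact ⟨a, Finset.mem_filter.2 ⟨haT, h⟩, fun h => hirr a (Finset.mem_filter.1 h).2⟩
            · intro x hx
              rw [Finset.mem_filter] at hx ⊢
              exact ⟨hx.1, htr _ _ _ hx.2 h⟩
          omega
      have hρa := hpos a haT
      have hev : ∀ b ∈ T.filter (fun b => r a b), ∀ᶠ δ : ℝ in 𝓝[>] 0,
          δ < (ρ a / 2 - (|p b - p a| + ρ b)) / 2 := by
        intro b hb
        rw [Finset.mem_filter] at hb
        have h1 := hnest a haT b hb.1 hb.2
        have h2 : (0:ℝ) < (ρ a / 2 - (|p b - p a| + ρ b)) / 2 := by linarith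
        exact nhdsWithin_le_nhds (Iio_mem_nhds h2)
      have hev2 := (Filter.eventually_all_finset _).2 hev
      have hev3 : ∀ᶠ δ : ℝ in 𝓝[>] 0, δ < ρ a / 4 :=
        nhdsWithin_le_nhds (Iio_mem_nhds (by linarith))
      have hev4 : ∀ᶠ δ : ℝ in 𝓝[>] 0, 0 < δ := self_mem_nhdsWithin
      obtain ⟨δ, ⟨hδ1, hδ2⟩, hδ0⟩ := ((hev2.and hev3).and hev4).exists
      have hin : |p a + ρ a / 2 - δ - p a| + δ / 2 = ρ a / 2 - δ / 2 := by
        have : p a + ρ a / 2 - δ - p a = ρ a / 2 - δ := by ring
        rw [this, abs_of_pos (by linarith)]
        ring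
      refine ⟨p a + ρ a / 2 - δ, δ / 2, max B (|p a + ρ a / 2 - δ| + δ / 2), by linarith,
        le_max_right _ _, le_max_left _ _, ?_, ?_⟩
      · intro c hc hcm
        rcases hpar c hc hcm with rfl | hca
        · rw [hin]
          linarith
        · have h1 := hnest c hc a haT hca
          have h2 := abs_sub_le (p a + ρ a / 2 - δ) (p a) (p c)
          linarith
      · intro c hc hcm
        by_cases hac : r a c
        · have h1 := hδ1 c (Finset.mem_filter.2 ⟨hc, hac⟩)
          have h2 := le_abs_self (p c - p a)
          have h3 : p a + ρ a / 2 - δ - p c ≤ |p c - (p a + ρ a / 2 - δ)| := by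
            rw [abs_sub_comm]
            exact le_abs_self _
          linarith
        · have hca : ¬ r c a := fun h => hcm (htr _ _ _ h ham)
          have hne : a ≠ c := by
            rintro rfl
            exact hcm ham
          have h1 := hdisj a haT c hc hne hac hca
          have h2 := abs_sub_le (p a) (p a + ρ a / 2 - δ) (p c)
          have h3 : |p a - (p a + ρ a / 2 - δ)| = ρ a / 2 - δ := by
            have : p a - (p a + ρ a / 2 - δ) = -(ρ a / 2 - δ) := by ring
            rw [this, abs_neg, abs_of_pos (by linarith)]
          have h4 := abs_sub_comm (p a + ρ a / 2 - δ) (p c)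
          linarith

/-- Every finite forest is realised by squares. -/
theorem for_all : Pool.Agent.Y300.KS.S_FOR := by
  intro k r hirr htr hfor
  obtain ⟨p, ρ, B, h1, h2, h3, h4⟩ := real_aux k r hirr htr hfor Finset.univ
  exact ⟨p, ρ, B, ⟨fun a => h1 a (Finset.mem_univ a), fun a => h2 a (Finset.mem_univ a),
    fun a b => h3 a (Finset.mem_univ a) b (Finset.mem_univ b),
    fun a b => h4 a (Finset.mem_univ a) b (Finset.mem_univ b)⟩⟩

end Pool.Agent.Y32.KS
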