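import Pool.Agent.Y300.KS.Stm

/-! Lower bound of the trinomial probabilities near the mode. -/

set_option autoImplicit false

open Set Filter Topology

namespace Pool.Agent.Y32.KS

open Pool.Agent.K300 Pool.Agent.Y300.KS

lemma pr_symm (n I J i j : ℕ) : pr n I J (i, j) = pr n J I (j, i) := by
  unfold pr
  simp only
  rw [Nat.sub_right_comm n i j, Nat.sub_right_comm n I J]
  ring

lemma pr_nonneg (n I J : ℕ) (m : ℕ × ℕ) : 0 ≤ pr n I J m := by
  unfold pr
  positivity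

lemma pr_step (n I J i j : ℕ) (hn : 0 < n) (h : i + 1 + j ≤ n) :
    pr n I J (i + 1, j) * (((i:ℝ) + 1) * ((n - I - J : ℕ) : ℝ)) =
      pr n I J (i, j) * (((n - i - j : ℕ) : ℝ) * I) := by
  obtain ⟨k, hk⟩ : ∃ k, n - (i + 1) - j = k := ⟨_, rfl⟩
  have hk1 : n - i - j = k + 1 := by omega
  have hn0 : (n:ℝ) ≠ 0 := by exact_mod_cast hn.ne'
  unfold pr
  simp only
  rw [hk, hk1, Nat.factorial_succ, Nat.factorial_succ]
  have h1 : (i.factorial : ℝ) ≠ 0 := by exact_mod_cast i.factorial_ne_zero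
  have h2 : (j.factorial : ℝ) ≠ 0 := by exact_mod_cast j.factorial_ne_zero
  have h3 : (k.factorial : ℝ) ≠ 0 := by exact_mod_cast k.factorial_ne_zero
  have h4 : ((i:ℝ) + 1) ≠ 0 := by positivity
  have h5 : ((k:ℝ) + 1) ≠ 0 := by positivity
  push_cast
  rw [pow_succ ((I:ℝ) / n), pow_succ (((n - I - J : ℕ) : ℝ) / n)]
  field_simp

/-- a chain of ratios -/
lemma chain (g : ℕ → ℝ) (q : ℝ) (hq : 0 ≤ q) (s : ℕ) : ∀ t : ℕ,
    (∀ i, s ≤ i → i < s + t → q * g i ≤ g (i + 1) ∧ q * g (i + 1) ≤ g i) →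
    q ^ t * g s ≤ g (s + t) ∧ q ^ t * g (s + t) ≤ g s := by
  intro t
  induction t with
  | zero => intro _; simp
  | succ t ih =>
    intro h
    obtain ⟨h1, h2⟩ := ih (fun i hi hi2 => h i hi (by omega))
    obtain ⟨h3, h4⟩ := h (s + t) (by omega) (by omega)
    have hqt : 0 ≤ q ^ t := pow_nonneg hq t
    constructor
    · calc q ^ (t + 1) * g s = q * (q ^ t * g s) := by ring
        _ ≤ q * g (s + t) := mul_le_mul_of_nonneg_left h1 hq
        _ ≤ g (s + (t + 1)) := h3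
    · calc q ^ (t + 1) * g (s + (t + 1)) = q ^ t * (q * g (s + t + 1)) := by ring_nf
        _ ≤ q ^ t * g (s + t) := mul_le_mul_of_nonneg_left h4 hqt
        _ ≤ g s := h2

/-- one step inside the window -/
lemma step_bd (n I J i j : ℕ) (e R : ℝ) (he : 0 < e) (hR : 0 ≤ R) (hn : 0 < n)
    (hI : e ^ 2 / 5 ≤ I) (hK : e ^ 2 / 5 ≤ ((n - I - J : ℕ) : ℝ)) (hIJ : I + J ≤ n)
    (h : i + 1 + j ≤ n)
    (hi : |(i:ℝ) - I| ≤ R * e) (hi1 : |((i:ℝ) + 1) - I| ≤ R * e) (hj : |(j:ℝ) - J| ≤ R * e) :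
    (1 - 15 * R / e) * pr n I J (i, j) ≤ pr n I J (i + 1, j) ∧
      (1 - 15 * R / e) * pr n I J (i + 1, j) ≤ pr n I J (i, j) := by
  have hs := pr_step n I J i j hn h
  obtain ⟨K, hKd⟩ : ∃ K : ℝ, K = ((n - I - J : ℕ) : ℝ) := ⟨_, rfl⟩
  obtain ⟨k, hkd⟩ : ∃ k : ℝ, k = ((n - i - j : ℕ) : ℝ) := ⟨_, rfl⟩
  have hK2 : K = n - I - J := by
    rw [hKd, Nat.sub_sub, Nat.cast_sub hIJ]
    push_cast
    ring
  have hk2 : k = n - i - j := by
    rw [hkd, Nat.sub_sub, Nat.cast_sub (by omega)]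
    push_cast
    ring
  rw [← hKd] at hK hs
  rw [← hkd] at hs
  have hi' := abs_le.1 hi
  have hi1' := abs_le.1 hi1
  have hj' := abs_le.1 hj
  have he2 : 0 < e ^ 2 / 5 := by positivity
  have hI0 : (0:ℝ) < I := lt_of_lt_of_le he2 hI
  have hK0 : 0 < K := lt_of_lt_of_le he2 hK
  have hk0 : 0 < k := by
    have : i + j + 1 ≤ n := by omega
    have h1 : (i:ℝ) + j + 1 ≤ n := by exact_mod_cast this
    rw [hk2]
    linarith
  have hi10 : (0:ℝ) < (i:ℝ) + 1 := by positivity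
  -- the main inequality
  have hmain : R * e * K + 2 * (R * e) * I ≤ 15 * R / e * (I * K) := by
    have h1 : (e ^ 2 / 5) * K ≤ I * K := mul_le_mul_of_nonneg_right hI hK0.le
    have h2 : I * (e ^ 2 / 5) ≤ I * K := mul_le_mul_of_nonneg_left hK hI0.le
    have h3 : 15 * R / e * (I * K) = 5 * R / e * (I * K) + 10 * R / e * (I * K) := by ring
    have h4 : 5 * R / e * ((e ^ 2 / 5) * K) ≤ 5 * R / e * (I * K) :=
      mul_le_mul_of_nonneg_left h1 (by positivity)
    have h5 : 10 * R / e * (I * (e ^ 2 / 5)) ≤ 10 * R / e * (I * K) :=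
      mul_le_mul_of_nonneg_left h2 (by positivity)
    have h6 : 5 * R / e * ((e ^ 2 / 5) * K) = R * e * K := by field_simp
    have h7 : 10 * R / e * (I * (e ^ 2 / 5)) = 2 * (R * e) * I := by
      field_simp
      ring
    linarith
  have hRe : 0 ≤ R * e := by positivity
  have hq : 0 ≤ 15 * R / e := by positivity
  have hp0 := pr_nonneg n I J (i, j)
  have hp1 := pr_nonneg n I J (i + 1, j)
  have hIK : 0 < (I:ℝ) * K := by positivity
  have hiK : 0 < ((i:ℝ) + 1) * K := by positivity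
  have hkI : 0 < k * (I:ℝ) := by positivity
  constructor
  · -- q (i + 1) K ≤ k I
    have h1 : (1 - 15 * R / e) * (((i:ℝ) + 1) * K) ≤ k * I := by
      rcases le_or_gt 0 (1 - 15 * R / e) with hq1 | hq1
      · have a1 : ((i:ℝ) + 1) * K ≤ (I + R * e) * K :=
          mul_le_mul_of_nonneg_right (by linarith) hK0.le
        have a2 : (K - 2 * (R * e)) * I ≤ k * I :=
          mul_le_mul_of_nonneg_right (by rw [hK2, hk2]; linarith) hI0.le
        have a3 : (1 - 15 * R / e) * (((i:ℝ) + 1) * K) ≤ (1 - 15 * R / e) * ((I + R * e) * K) :=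
          mul_le_mul_of_nonneg_left a1 hq1
        have a4 : (1 - 15 * R / e) * ((I + R * e) * K) =
            I * K + R * e * K - 15 * R / e * (I * K) - 15 * R / e * (R * e * K) := by ring
        have a5 : 0 ≤ 15 * R / e * (R * e * K) := by positivity
        have a6 : (K - 2 * (R * e)) * I = I * K - 2 * (R * e) * I := by ring
        linarith
      · have : (1 - 15 * R / e) * (((i:ℝ) + 1) * K) ≤ 0 :=
          mul_nonpos_of_nonpos_of_nonneg hq1.le hiK.le
        linarith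
    have h2 : ((1 - 15 * R / e) * pr n I J (i, j)) * (((i:ℝ) + 1) * K) ≤
        pr n I J (i + 1, j) * (((i:ℝ) + 1) * K) := by
      rw [hs]
      calc ((1 - 15 * R / e) * pr n I J (i, j)) * (((i:ℝ) + 1) * K) =
          pr n I J (i, j) * ((1 - 15 * R / e) * (((i:ℝ) + 1) * K)) := by ring
        _ ≤ pr n I J (i, j) * (k * I) := mul_le_mul_of_nonneg_left h1 hp0
    exact le_of_mul_le_mul_right h2 hiK
  · have h1 : (1 - 15 * R / e) * (k * I) ≤ ((i:ℝ) + 1) * K := by
      rcases le_or_gt 0 (1 - 15 * R / e) with hq1 | hq1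
      · have a1 : (I - R * e) * K ≤ ((i:ℝ) + 1) * K :=
          mul_le_mul_of_nonneg_right (by linarith) hK0.le
        have a2 : k * I ≤ (K + 2 * (R * e)) * I :=
          mul_le_mul_of_nonneg_right (by rw [hK2, hk2]; linarith) hI0.le
        have a3 : (1 - 15 * R / e) * (k * I) ≤ (1 - 15 * R / e) * ((K + 2 * (R * e)) * I) :=
          mul_le_mul_of_nonneg_left a2 hq1
        have a4 : (1 - 15 * R / e) * ((K + 2 * (R * e)) * I) =
            I * K + 2 * (R * e) * I - 15 * R / e * (I * K) - 15 * R / e * (2 * (R * e) * I) := by ring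
        have a5 : 0 ≤ 15 * R / e * (2 * (R * e) * I) := by positivity
        have a6 : (I - R * e) * K = I * K - R * e * K := by ring
        linarith
      · have : (1 - 15 * R / e) * (k * I) ≤ 0 :=
          mul_nonpos_of_nonpos_of_nonneg hq1.le hkI.le
        linarith
    have h2 : ((1 - 15 * R / e) * pr n I J (i + 1, j)) * (k * I) ≤ pr n I J (i, j) * (k * I) := by
      rw [← hs]
      calc ((1 - 15 * R / e) * pr n I J (i + 1, j)) * (k * I) =
          pr n I J (i + 1, j) * ((1 - 15 * R / e) * (k * I)) := by ring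
        _ ≤ pr n I J (i + 1, j) * (((i:ℝ) + 1) * K) := mul_le_mul_of_nonneg_left h1 hp1
    exact le_of_mul_le_mul_right h2 hkI

/-- moving the first exponent inside the window -/
lemma row (n I J j a b : ℕ) (e R : ℝ) (hR : 0 < R) (hn : 0 < n)
    (hI : e ^ 2 / 5 ≤ I) (hK : e ^ 2 / 5 ≤ ((n - I - J : ℕ) : ℝ)) (hIJ : I + J ≤ n)
    (heR : 30 * R ≤ e)
    (hj : |(j:ℝ) - J| ≤ R * e) (ha : |(a:ℝ) - I| ≤ R * e) (hb : |(b:ℝ) - I| ≤ R * e) :
    Real.exp (-(60 * R ^ 2)) * pr n I J (a, j) ≤ pr n I J (b, j) := by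
  have he : 0 < e := by linarith
  obtain ⟨q, hq⟩ : ∃ q : ℝ, q = 1 - 15 * R / e := ⟨_, rfl⟩
  have hx : 15 * R / e ≤ 1 / 2 := by
    rw [div_le_iff₀ he]
    linarith
  have hx0 : 0 ≤ 15 * R / e := by positivity
  have hq0 : 0 ≤ q := by rw [hq]; linarith
  have hqe : Real.exp (-(30 * R / e)) ≤ q := by
    rw [hq]
    have h1 : 30 * R / e = 2 * (15 * R / e) := by ring
    rw [h1]
    obtain ⟨x, hx'⟩ : ∃ x, x = 15 * R / e := ⟨_, rfl⟩
    rw [← hx'] at hx hx0 ⊢
    rw [Real.exp_neg, inv_le_comm₀ (Real.exp_pos _) (by linarith)]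
    have h2 : 1 + 2 * x + (2 * x) ^ 2 / 2 ≤ Real.exp (2 * x) := by
      have := Real.quadratic_le_exp_of_nonneg (by linarith : 0 ≤ 2 * x)
      linarith
    refine le_trans ?_ h2
    rw [inv_le_iff_one_le_mul₀ (by linarith)]
    nlinarith [mul_nonneg hx0 hx0, mul_nonneg hx0 (by linarith : 0 ≤ 1 / 2 - x)]
  -- the sum of the window is inside the triangle
  have hK2 : ((n - I - J : ℕ) : ℝ) = n - I - J := by
    rw [Nat.sub_sub, Nat.cast_sub hIJ]
    push_cast
    ring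
  have hj' := abs_le.1 hj
  have hin : ∀ i : ℕ, |((i:ℝ)) - I| ≤ R * e → i + j ≤ n := by
    intro i hi
    have hi' := abs_le.1 hi
    have h1 : 2 * (R * e) ≤ e ^ 2 / 5 := by nlinarith
    have h2 : (i:ℝ) + j ≤ n := by linarith
    exact_mod_cast h2
  -- the chain
  have hmain : ∀ s t : ℕ, |(s:ℝ) - I| ≤ R * e → |((s + t : ℕ) : ℝ) - I| ≤ R * e →
      Real.exp (-(60 * R ^ 2)) * pr n I J (s, j) ≤ pr n I J (s + t, j) ∧
      Real.exp (-(60 * R ^ 2)) * pr n I J (s + t, j) ≤ pr n I J (s, j) := by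
    intro s t hs ht
    have hs' := abs_le.1 hs
    have ht' := abs_le.1 ht
    push_cast at ht'
    have h1 := chain (fun i => pr n I J (i, j)) q hq0 s t (by
      intro i hi1 hi2
      have c1 : (s:ℝ) ≤ i := by exact_mod_cast hi1
      have c2 : (i:ℝ) + 1 ≤ s + t := by exact_mod_cast hi2
      have c3 : |(i:ℝ) - I| ≤ R * e := by rw [abs_le]; constructor <;> linarith
      have c4 : |((i:ℝ) + 1) - I| ≤ R * e := by rw [abs_le]; constructor <;> linarith
      have c5 : i + 1 + j ≤ n := hin (i + 1) (by push_cast; exact c4)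
      rw [hq]
      exact step_bd n I J i j e R he hR.le hn hI hK hIJ c5 c3 c4 hj)
    have hpow : Real.exp (-(60 * R ^ 2)) ≤ q ^ t := by
      have h2 : Real.exp (-(30 * R / e)) ^ t ≤ q ^ t :=
        pow_le_pow_left₀ (Real.exp_pos _).le hqe t
      refine le_trans ?_ h2
      rw [← Real.exp_nat_mul]
      apply Real.exp_le_exp.2
      have h3 : (t:ℝ) ≤ 2 * (R * e) := by linarith
      have h4 : (t:ℝ) * (30 * R / e) ≤ 2 * (R * e) * (30 * R / e) :=
        mul_le_mul_of_nonneg_right h3 (by positivity)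
      have h5 : 2 * (R * e) * (30 * R / e) = 60 * R ^ 2 := by
        field_simp
        ring
      linarith
    constructor
    · exact (mul_le_mul_of_nonneg_right hpow (pr_nonneg _ _ _ _)).trans h1.1
    · exact (mul_le_mul_of_nonneg_right hpow (pr_nonneg _ _ _ _)).trans h1.2
  rcases le_total a b with hab | hab
  · obtain ⟨t, rfl⟩ := Nat.exists_eq_add_of_le hab
    exact (hmain a t ha hb).1
  · obtain ⟨t, rfl⟩ := Nat.exists_eq_add_of_le hab
    exact (hmain b t hb ha).2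

/-- the trinomial theorem -/
lemma sum_pr (n I J : ℕ) (hn : 0 < n) (hIJ : I + J ≤ n) : ∑ m ∈ tri n, pr n I J m = 1 := by
  have hn0 : (n:ℝ) ≠ 0 := by exact_mod_cast hn.ne'
  obtain ⟨x, hx⟩ : ∃ x : ℝ, x = (I:ℝ) / n := ⟨_, rfl⟩
  obtain ⟨y, hy⟩ : ∃ y : ℝ, y = (J:ℝ) / n := ⟨_, rfl⟩
  obtain ⟨z, hz⟩ : ∃ z : ℝ, z = ((n - I - J : ℕ) : ℝ) / n := ⟨_, rfl⟩
  have hsum : x + (y + z) = 1 := by
    rw [hx, hy, hz, Nat.sub_sub, Nat.cast_sub hIJ]
    push_cast
    field_simp
    ring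
  have h1 : ∑ m ∈ tri n, pr n I J m =
      ∑ i ∈ Finset.range (n + 1), ∑ j ∈ Finset.range (n - i + 1), pr n I J (i, j) := by
    unfold tri
    rw [Finset.sum_filter, Finset.sum_product]
    apply Finset.sum_congr rfl
    intro i hi
    rw [Finset.mem_range] at hi
    rw [← Finset.sum_filter]
    apply Finset.sum_congr _ (fun _ _ => rfl)
    ext j
    simp only [Finset.mem_filter, Finset.mem_range]
    omega
  rw [h1]
  have h2 : (1:ℝ) = (x + (y + z)) ^ n := by rw [hsum, one_pow]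
  rw [h2, add_pow]
  apply Finset.sum_congr rfl
  intro i hi
  rw [Finset.mem_range] at hi
  rw [add_pow, Finset.mul_sum, Finset.sum_mul]
  apply Finset.sum_congr rfl
  intro j hj
  rw [Finset.mem_range] at hj
  unfold pr
  simp only
  rw [← hx, ← hy, ← hz]
  have e1 : ((n.choose i : ℕ) : ℝ) * ((n - i).choose j : ℕ) =
      (n.factorial : ℝ) / (i.factorial * j.factorial * (n - i - j).factorial) := by
    rw [Nat.cast_choose ℝ (by omega : i ≤ n), Nat.cast_choose ℝ (by omega : j ≤ n - i)]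
    have a1 : (i.factorial : ℝ) ≠ 0 := by exact_mod_cast i.factorial_ne_zero
    have a2 : (j.factorial : ℝ) ≠ 0 := by exact_mod_cast j.factorial_ne_zero
    have a3 : ((n - i).factorial : ℝ) ≠ 0 := by exact_mod_cast (n - i).factorial_ne_zero
    have a4 : ((n - i - j).factorial : ℝ) ≠ 0 := by exact_mod_cast (n - i - j).factorial_ne_zero
    field_simp
  rw [← e1]
  ring

/-- a point with a large probability near the mode -/
lemma exists_big (ha : S_ABS) (n I J : ℕ) (hn : 0 < n) (hIJ : I + J ≤ n) :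
    ∃ m ∈ tri n, |(m.1:ℝ) - I| ≤ 11 * ell n ∧ |(m.2:ℝ) - J| ≤ 11 * ell n ∧
      1 / (1058 * (ell n : ℝ) ^ 2) ≤ pr n I J m := by
  classical
  have hl : 1 ≤ ell n := by
    unfold ell
    exact Nat.sqrt_pos.2 hn
  have hlr : (1:ℝ) ≤ ell n := by exact_mod_cast hl
  have hl0 : (0:ℝ) < ell n := by linarith
  obtain ⟨G, hG⟩ : ∃ G, G = (tri n).filter (fun m => ab n I J m ≤ 11) := ⟨_, rfl⟩
  have h1 := ha n I J hn hIJ 1 (by norm_num) hlr
  have h2 : ∑ m ∈ (tri n).filter (fun m => ¬ ab n I J m ≤ 11), pr n I J m ≤ 1 / 2 := by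
    have a1 : Real.exp 11 * ∑ m ∈ (tri n).filter (fun m => ¬ ab n I J m ≤ 11), pr n I J m ≤
        4 * Real.exp 8 := by
      have a2 : (4:ℝ) * Real.exp (8 * 1 ^ 2) = 4 * Real.exp 8 := by norm_num
      rw [a2] at h1
      refine le_trans ?_ h1
      rw [Finset.mul_sum]
      refine le_trans (Finset.sum_le_sum (g := fun m => pr n I J m * Real.exp (1 * ab n I J m)) ?_) ?_
      · intro m hm
        rw [Finset.mem_filter, not_le] at hm
        rw [mul_comm]
        apply mul_le_mul_of_nonneg_left _ (pr_nonneg _ _ _ _)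
        apply Real.exp_le_exp.2
        linarith
      · apply Finset.sum_le_sum_of_subset_of_nonneg (Finset.filter_subset _ _)
        intro m _ _
        exact mul_nonneg (pr_nonneg _ _ _ _) (Real.exp_pos _).le
    have a3 : Real.exp 11 = Real.exp 8 * Real.exp 3 := by rw [← Real.exp_add]; norm_num
    have a4 : (8:ℝ) ≤ Real.exp 3 := by
      have b1 := Real.add_one_le_exp (1:ℝ)
      have b2 : Real.exp 3 = Real.exp 1 ^ 3 := by rw [← Real.exp_nat_mul]; norm_num
      rw [b2]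
      have b3 : (2:ℝ) ≤ Real.exp 1 := by linarith
      calc (8:ℝ) = 2 ^ 3 := by norm_num
        _ ≤ Real.exp 1 ^ 3 := pow_le_pow_left₀ (by norm_num) b3 3
    rw [a3] at a1
    obtain ⟨s, hs⟩ : ∃ s, s = ∑ m ∈ (tri n).filter (fun m => ¬ ab n I J m ≤ 11), pr n I J m :=
      ⟨_, rfl⟩
    rw [← hs] at a1 ⊢
    have hs0 : 0 ≤ s := by
      rw [hs]
      exact Finset.sum_nonneg fun m _ => pr_nonneg _ _ _ _
    have he8 := Real.exp_pos 8
    have a5 : Real.exp 8 * (Real.exp 3 * s) ≤ Real.exp 8 * 4 := by linarith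
    have a6 := le_of_mul_le_mul_left a5 he8
    nlinarith
  have h3 : 1 / 2 ≤ ∑ m ∈ G, pr n I J m := by
    have b1 := Finset.sum_filter_add_sum_filter_not (tri n) (fun m => ab n I J m ≤ 11)
      (fun m => pr n I J m)
    rw [sum_pr n I J hn hIJ, ← hG] at b1
    linarith
  have hmem : ∀ m ∈ G, |(m.1:ℝ) - I| ≤ 11 * ell n ∧ |(m.2:ℝ) - J| ≤ 11 * ell n := by
    intro m hm
    rw [hG, Finset.mem_filter] at hm
    have h4 := hm.2
    unfold ab sx at h4
    rw [abs_div, abs_div, abs_of_pos hl0] at h4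
    have h5 : 0 ≤ |(m.1:ℝ) - I| / ell n := by positivity
    have h6 : 0 ≤ |(m.2:ℝ) - J| / ell n := by positivity
    constructor
    · rw [← div_le_iff₀ hl0]
      linarith
    · rw [← div_le_iff₀ hl0]
      linarith
  have hcard : G.card ≤ (23 * ell n) ^ 2 := by
    have hsub : G ⊆ (Finset.Icc (I - 11 * ell n) (I + 11 * ell n)) ×ˢ
        (Finset.Icc (J - 11 * ell n) (J + 11 * ell n)) := by
      intro m hm
      obtain ⟨c1, c2⟩ := hmem m hm
      rw [abs_le] at c1 c2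
      rw [Finset.mem_product, Finset.mem_Icc, Finset.mem_Icc]
      have d1 : (I:ℝ) ≤ (m.1 + 11 * ell n : ℕ) := by push_cast; linarith
      have d2 : (m.1:ℝ) ≤ (I + 11 * ell n : ℕ) := by push_cast; linarith
      have d3 : (J:ℝ) ≤ (m.2 + 11 * ell n : ℕ) := by push_cast; linarith
      have d4 : (m.2:ℝ) ≤ (J + 11 * ell n : ℕ) := by push_cast; linarith
      have d1' : I ≤ m.1 + 11 * ell n := by exact_mod_cast d1
      have d2' : m.1 ≤ I + 11 * ell n := by exact_mod_cast d2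
      have d3' : J ≤ m.2 + 11 * ell n := by exact_mod_cast d3
      have d4' : m.2 ≤ J + 11 * ell n := by exact_mod_cast d4
      refine ⟨⟨?_, d2'⟩, ⟨?_, d4'⟩⟩ <;> omega
    refine (Finset.card_le_card hsub).trans ?_
    rw [Finset.card_product, Nat.card_Icc, Nat.card_Icc, pow_two]
    exact Nat.mul_le_mul (by omega) (by omega)
  by_contra hcon
  push Not at hcon
  have hlt : ∀ m ∈ G, pr n I J m ≤ 1 / (1058 * (ell n : ℝ) ^ 2) := by
    intro m hm
    obtain ⟨c1, c2⟩ := hmem m hm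
    have hmt : m ∈ tri n := by
      rw [hG, Finset.mem_filter] at hm
      exact hm.1
    exact (hcon m hmt c1 c2).le
  have hGne : G.Nonempty := by
    rw [Finset.nonempty_iff_ne_empty]
    intro h0
    rw [h0, Finset.sum_empty] at h3
    norm_num at h3
  have h4 : ∑ m ∈ G, pr n I J m < ∑ _m ∈ G, 1 / (1058 * (ell n : ℝ) ^ 2) := by
    apply Finset.sum_lt_sum_of_nonempty hGne
    intro m hm
    obtain ⟨c1, c2⟩ := hmem m hm
    have hmt : m ∈ tri n := by
      rw [hG, Finset.mem_filter] at hm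
      exact hm.1
    exact hcon m hmt c1 c2
  rw [Finset.sum_const, nsmul_eq_mul] at h4
  have h5 : (G.card : ℝ) ≤ (23 * ell n) ^ 2 := by exact_mod_cast hcard
  have h6 : (G.card : ℝ) * (1 / (1058 * (ell n : ℝ) ^ 2)) ≤
      (23 * ell n) ^ 2 * (1 / (1058 * (ell n : ℝ) ^ 2)) :=
    mul_le_mul_of_nonneg_right h5 (by positivity)
  have h7 : (23 * (ell n : ℝ)) ^ 2 * (1 / (1058 * (ell n : ℝ) ^ 2)) = 1 / 2 := by
    field_simp
    norm_num
  linarith

/-- the lower bound near the mode -/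
theorem low_all (ha : S_ABS) : S_LOW := by
  intro R0
  obtain ⟨R, hR⟩ : ∃ R : ℝ, R = max R0 11 := ⟨_, rfl⟩
  have hR0 : R0 ≤ R := by rw [hR]; exact le_max_left _ _
  have hR11 : 11 ≤ R := by rw [hR]; exact le_max_right _ _
  have hRp : 0 < R := by linarith
  obtain ⟨N, hN⟩ : ∃ N : ℕ, 30 * R ≤ N := exists_nat_ge _
  refine ⟨√(Real.exp (-(60 * R ^ 2)) * (Real.exp (-(60 * R ^ 2)) * (1 / 1058))),
    by positivity, N ^ 2 + 1, ?_⟩
  intro n hn I J hcen m hm hm1 hm2
  have hn0 : 0 < n := by omega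
  have hlN : N ≤ ell n := by
    unfold ell
    rw [Nat.le_sqrt']
    omega
  obtain ⟨e, he⟩ : ∃ e : ℝ, e = ell n := ⟨_, rfl⟩
  have heN : (N:ℝ) ≤ e := by rw [he]; exact_mod_cast hlN
  have he30 : 30 * R ≤ e := hN.trans heN
  have he0 : 0 < e := by linarith
  have hen : e ^ 2 ≤ n := by
    have h1 : ell n ^ 2 ≤ n := by unfold ell; exact Nat.sqrt_le' n
    rw [he]
    exact_mod_cast h1
  have hI5 : (n:ℝ) ≤ 5 * I := by exact_mod_cast hcen.hI
  have hJ5 : (n:ℝ) ≤ 5 * J := by exact_mod_cast hcen.hJ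
  have hK5 : 5 * ((I:ℝ) + J) ≤ 4 * n := by exact_mod_cast hcen.hK
  have hIJ : I + J ≤ n := by have := hcen.hK; omega
  have hJI : J + I ≤ n := by omega
  have hKc : ((n - I - J : ℕ) : ℝ) = n - I - J := by
    rw [Nat.sub_sub, Nat.cast_sub hIJ]
    push_cast
    ring
  have hKc' : ((n - J - I : ℕ) : ℝ) = n - I - J := by
    rw [Nat.sub_sub, Nat.cast_sub hJI]
    push_cast
    ring
  have hI : e ^ 2 / 5 ≤ I := by linarith
  have hJ : e ^ 2 / 5 ≤ J := by linarith
  have hK : e ^ 2 / 5 ≤ ((n - I - J : ℕ) : ℝ) := by rw [hKc]; linarith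
  have hK' : e ^ 2 / 5 ≤ ((n - J - I : ℕ) : ℝ) := by rw [hKc']; linarith
  obtain ⟨ms, -, hs1, hs2, hs3⟩ := exists_big ha n I J hn0 hIJ
  rw [← he] at hs1 hs2 hs3
  obtain ⟨i', j'⟩ := ms
  obtain ⟨i, j⟩ := m
  simp only at hs1 hs2 hs3 hm1 hm2
  have hwin : ∀ x : ℝ, |x / e| ≤ R0 → |x| ≤ R * e := by
    intro x hx
    rw [abs_div, abs_of_pos he0, div_le_iff₀ he0] at hx
    refine hx.trans ?_
    gcongr
  have hi : |(i:ℝ) - I| ≤ R * e := by
    apply hwin
    unfold sx at hm1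
    rw [← he] at hm1
    exact hm1
  have hj : |(j:ℝ) - J| ≤ R * e := by
    apply hwin
    unfold sx at hm2
    rw [← he] at hm2
    exact hm2
  have hi' : |(i':ℝ) - I| ≤ R * e := hs1.trans (by gcongr)
  have hj' : |(j':ℝ) - J| ≤ R * e := hs2.trans (by gcongr)
  have h1 := row n I J j' i' i e R hRp hn0 hI hK hIJ he30 hj' hi' hi
  have h2 := row n J I i j' j e R hRp hn0 hJ hK' hJI he30 hi hj' hj
  rw [← pr_symm n I J i j', ← pr_symm n I J i j] at h2
  have hE := Real.exp_pos (-(60 * R ^ 2))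
  have h3 : Real.exp (-(60 * R ^ 2)) * (Real.exp (-(60 * R ^ 2)) * (1 / (1058 * e ^ 2))) ≤
      pr n I J (i, j) := by
    refine le_trans ?_ h2
    apply mul_le_mul_of_nonneg_left _ hE.le
    refine le_trans ?_ h1
    exact mul_le_mul_of_nonneg_left hs3 hE.le
  unfold sp
  rw [← he]
  have h4 : e = √(e ^ 2) := (Real.sqrt_sq he0.le).symm
  rw [h4, ← Real.sqrt_mul (by positivity)]
  apply Real.sqrt_le_sqrt
  calc Real.exp (-(60 * R ^ 2)) * (Real.exp (-(60 * R ^ 2)) * (1 / 1058)) =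
      e ^ 2 * (Real.exp (-(60 * R ^ 2)) * (Real.exp (-(60 * R ^ 2)) * (1 / (1058 * e ^ 2)))) := by
        field_simp
    _ ≤ e ^ 2 * pr n I J (i, j) := mul_le_mul_of_nonneg_left h3 (by positivity)

end Pool.Agent.Y32.KS
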